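import Pool.Agent.N928.FG.Stm

/-!
# Project FG (helper928), leaf AB: return probabilities on `ℤ⁶` are of order `n⁻³`
-/

set_option autoImplicit false

namespace Pool.Agent.N966.FG

open Pool.Agent.N928.FG

theorem bet_mem (β b : ℝ) (h1 : b ≤ β) (h2 : β ≤ 1 / 2) (i : Fin 6) :
    b ≤ bet β i ∧ bet β i ≤ 1 / 2 := by
  unfold bet
  split_ifs
  · exact ⟨h1.trans h2, le_rfl⟩
  · exact ⟨h1, h2⟩

theorem pow6 (c : ℝ) (n : ℕ) (hn : 1 ≤ n) : (c / Real.sqrt n) ^ 6 = c ^ 6 / (n : ℝ) ^ 3 := by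
  have h0 : (0 : ℝ) ≤ n := Nat.cast_nonneg n
  rw [div_pow]
  congr 1
  calc Real.sqrt n ^ 6 = (Real.sqrt n ^ 2) ^ 3 := by ring
    _ = (n : ℝ) ^ 3 := by rw [Real.sq_sqrt h0]

theorem upper (h1 : S_S1) (b C : ℝ) (hb : 0 < b)
    (hC : ∀ β : ℝ, b ≤ β → β ≤ 1 / 2 → ∀ n : ℕ, 1 ≤ n → s β n 0 ≤ C / Real.sqrt n)
    (β : ℝ) (hβ : b ≤ β) (hβ2 : β ≤ 1 / 2) (n : ℕ) (hn : 1 ≤ n) :
    an β n ≤ C ^ 6 / (n : ℝ) ^ 3 := by
  unfold an
  calc ∏ i, s (bet β i) n 0 ≤ ∏ _i : Fin 6, C / Real.sqrt n := by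
        refine Finset.prod_le_prod (fun i _ => ?_) (fun i _ => ?_)
        · obtain ⟨h3, h4⟩ := bet_mem β b hβ hβ2 i
          exact (h1 _ (hb.trans_le h3) h4 n 0).1
        · obtain ⟨h3, h4⟩ := bet_mem β b hβ hβ2 i
          exact hC _ h3 h4 n hn
    _ = C ^ 6 / (n : ℝ) ^ 3 := by
        rw [Finset.prod_const, Finset.card_univ, Fintype.card_fin, pow6 C n hn]

theorem t_AB : S_QB → S_S1 → S_AB := by
  intro hQ h1
  obtain ⟨hL, hU⟩ := hQ
  constructor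
  · intro β hβ hβ2
    obtain ⟨c1, hc1, h3⟩ := hL β hβ hβ2
    obtain ⟨c2, hc2, h4⟩ := hL (1 / 2) (by norm_num) le_rfl
    obtain ⟨C, hC, h5⟩ := hU β hβ
    refine ⟨(min c1 c2) ^ 6, C ^ 6, pow_pos (lt_min hc1 hc2) 6, pow_pos hC 6, ?_⟩
    intro n hn
    refine ⟨?_, upper h1 β C hβ h5 β le_rfl hβ2 n hn⟩
    rw [← pow6 _ n hn]
    unfold an
    have hm : 0 ≤ min c1 c2 := (lt_min hc1 hc2).le
    calc (min c1 c2 / Real.sqrt n) ^ 6 = ∏ _i : Fin 6, min c1 c2 / Real.sqrt n := by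
          rw [Finset.prod_const, Finset.card_univ, Fintype.card_fin]
      _ ≤ ∏ i, s (bet β i) n 0 := by
          refine Finset.prod_le_prod (fun i _ => div_nonneg hm (Real.sqrt_nonneg _))
            (fun i _ => ?_)
          unfold bet
          split_ifs
          · exact (div_le_div_of_nonneg_right (min_le_right _ _) (Real.sqrt_nonneg _)).trans
              (h4 n hn)
          · exact (div_le_div_of_nonneg_right (min_le_left _ _) (Real.sqrt_nonneg _)).trans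
              (h3 n hn)
  · intro b hb
    obtain ⟨C, hC, h5⟩ := hU b hb
    exact ⟨C ^ 6, pow_pos hC 6, fun β h3 h4 n hn => upper h1 b C hb h5 β h3 h4 n hn⟩

end Pool.Agent.N966.FG

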